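import Mathlib

/-!
# The category of cosheaves of abelian groups need not be abelian
-/

set_option autoImplicit false

open CategoryTheory TopologicalSpace Opposite
open scoped DirectSum

namespace Pool.Agent.Results.MP_c909fd_al.NotAbelian

/-! ### Cosheaves -/

section defs

variable {X : Type} [TopologicalSpace X] (F : Opens X ⥤ AddCommGrpCat.{0})

/-- The map `⨁ i, F(V i) → F(U)`, for a family of open subsets `V i ≤ U`. -/
noncomputable def sumMap {ι : Type} [DecidableEq ι] (V : ι → Opens X) (U : Opens X)
    (h : ∀ i, V i ≤ U) : (⨁ i, F.obj (V i)) →+ F.obj U :=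
  DirectSum.toAddMonoid fun i => (F.map (homOfLE (h i))).hom

/-- The difference `⨁ (i, j), F(V i ⊓ V j) → ⨁ i, F(V i)` of the two maps induced by the
inclusions of `V i ⊓ V j` in `V i` and in `V j`. -/
noncomputable def diffMap {ι : Type} [DecidableEq ι] (V : ι → Opens X) :
    (⨁ p : ι × ι, F.obj (V p.1 ⊓ V p.2)) →+ ⨁ i, F.obj (V i) :=
  DirectSum.toAddMonoid fun p =>
    (DirectSum.of (fun i => F.obj (V i)) p.1).comp (F.map (homOfLE inf_le_left)).hom -
    (DirectSum.of (fun i => F.obj (V i)) p.2).comp (F.map (homOfLE inf_le_right)).hom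

/-- A precosheaf of abelian groups is a cosheaf if for every open cover `U = ⋃ i, V i` the
sequence `⨁ F(V i ∩ V j) → ⨁ F(V i) → F(U) → 0` is exact. -/
def IsCosheaf : Prop :=
  ∀ (ι : Type) [DecidableEq ι] (V : ι → Opens X) (U : Opens X) (h : ∀ i, V i ≤ U),
    U ≤ iSup V → Function.Surjective (sumMap F V U h) ∧
      Function.Exact (diffMap F V) (sumMap F V U h)

end defs

/-- The category of cosheaves of abelian groups on `X`: the full subcategory of the category of
covariant functors on the open sets given by the cosheaves. -/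
abbrev CS (X : Type) [TopologicalSpace X] : Type 1 :=
  ObjectProperty.FullSubcategory (fun F : Opens X ⥤ AddCommGrpCat.{0} => IsCosheaf F)

/-! ### The space -/

/-- the space: the natural numbers with the cofinite topology -/
abbrev NX : Type := CofiniteTopology ℕ

/-- the number of a point -/
def nn (x : NX) : ℕ := CofiniteTopology.of.symm x

theorem nn_inj : Function.Injective nn := CofiniteTopology.of.symm.injective

theorem nn_surj : Function.Surjective nn := CofiniteTopology.of.symm.surjective

/-- `U` is not empty -/
def NE (U : Opens NX) : Prop := ∃ x, x ∈ U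

theorem finite_compl {U : Opens NX} (h : NE U) : {x | x ∉ U}.Finite := by
  obtain ⟨x, hx⟩ := h
  exact CofiniteTopology.isOpen_iff.mp U.2 ⟨x, hx⟩

theorem infinite_NX : Infinite NX := Infinite.of_surjective nn nn_surj

theorem NE_inf {U V : Opens NX} (hU : NE U) (hV : NE V) : NE (U ⊓ V) := by
  have := infinite_NX
  have h1 : ({x | x ∉ U} ∪ {x | x ∉ V}).Finite := (finite_compl hU).union (finite_compl hV)
  obtain ⟨x, hx⟩ := h1.exists_notMem
  simp only [Set.mem_union, Set.mem_ofPred_eq, not_or, not_not] at hx
  exact ⟨x, hx⟩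

/-- the complement of a point -/
def co (m : NX) : Opens NX := ⟨{m}ᶜ, CofiniteTopology.isOpen_iff.mpr fun _ => by simp⟩

theorem mem_co {m x : NX} : x ∈ co m ↔ x ≠ m := Iff.rfl

/-! ### The cosheaves -/

/-- the index set -/
abbrev J : Type := Option NX

/-- the component `j` is present over `U` -/
def P (j : J) (U : Opens NX) : Prop := NE U ∧ ∀ x, j = some x → x ∉ U

theorem P_mono {j : J} {U V : Opens NX} (h : V ≤ U) (hV : NE V) (hP : P j U) : P j V :=
  ⟨hV, fun x hx hxV => hP.2 x hx (h hxV)⟩

theorem P_none {U : Opens NX} (h : NE U) : P none U := ⟨h, fun x hx => by cases hx⟩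

theorem finite_P (U : Opens NX) : {j | P j U}.Finite := by
  by_cases hU : NE U
  · refine ((Set.finite_singleton (none : J)).union ((finite_compl hU).image some)).subset ?_
    rintro (_ | x) hj
    · exact Or.inl rfl
    · exact Or.inr ⟨x, hj.2 x rfl, rfl⟩
  · refine Set.finite_empty.subset fun j hj => hU hj.1

/-- the sections over `U` -/
def Fs (T : Set J) (U : Opens NX) : AddSubgroup (J →₀ ℤ) where
  carrier := {x | ∀ j, x j ≠ 0 → j ∈ T ∧ P j U}
  zero_mem' := fun j hj => absurd rfl hj
  add_mem' := by
    intro x y hx hy j hj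
    by_cases h : x j = 0
    · refine hy j fun h' => hj ?_
      rw [Finsupp.add_apply, h, h', add_zero]
    · exact hx j h
  neg_mem' := by
    intro x hx j hj
    refine hx j fun h => hj ?_
    rw [Finsupp.neg_apply, h, neg_zero]

open Classical in
/-- the transition maps -/
noncomputable def res (T : Set J) (V U : Opens NX) : Fs T V →+ Fs T U where
  toFun x := ⟨x.1.filter (fun j => P j U), fun j hj => by
    rw [Finsupp.filter_apply] at hj
    split_ifs at hj with h
    · exact ⟨(x.2 j hj).1, h⟩
    · exact absurd rfl hj⟩
  map_zero' := by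
    apply Subtype.ext
    exact Finsupp.filter_zero _
  map_add' x y := by
    apply Subtype.ext
    exact Finsupp.filter_add

theorem res_of_P {T : Set J} {V U : Opens NX} (x : Fs T V) {j : J} (h : P j U) :
    (res T V U x).1 j = x.1 j := by
  classical
  exact Finsupp.filter_apply_pos _ _ h

theorem res_of_not_P {T : Set J} {V U : Opens NX} (x : Fs T V) {j : J} (h : ¬ P j U) :
    (res T V U x).1 j = 0 := by
  classical
  exact Finsupp.filter_apply_neg _ _ h

theorem Fs_ext {T : Set J} {U : Opens NX} {x y : Fs T U} (h : ∀ j, P j U → x.1 j = y.1 j) :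
    x = y := by
  apply Subtype.ext
  ext j
  by_cases hP : P j U
  · exact h j hP
  · have h1 : x.1 j = 0 := by
      by_contra hne
      exact hP (x.2 j hne).2
    have h2 : y.1 j = 0 := by
      by_contra hne
      exact hP (y.2 j hne).2
    rw [h1, h2]

theorem eq_zero_of_not_P {T : Set J} {U : Opens NX} (x : Fs T U) {j : J} (h : ¬ P j U) :
    x.1 j = 0 := by
  by_contra hne
  exact h (x.2 j hne).2

theorem eq_zero_of_not_NE {T : Set J} {U : Opens NX} (x : Fs T U) (h : ¬ NE U) : x = 0 :=
  Fs_ext fun _ hj => absurd hj.1 h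

theorem res_res {T : Set J} {W V U : Opens NX} (h1 : W ≤ V) (h2 : V ≤ U) (x : Fs T W) :
    res T V U (res T W V x) = res T W U x := by
  by_cases hV : NE V
  · refine Fs_ext fun j hj => ?_
    rw [res_of_P _ hj, res_of_P _ (P_mono h2 hV hj), res_of_P _ hj]
  · have hW : ¬ NE W := fun ⟨y, hy⟩ => hV ⟨y, h1 hy⟩
    rw [eq_zero_of_not_NE x hW, map_zero, map_zero, map_zero]

/-- the precosheaf -/
noncomputable def FF (T : Set J) : Opens NX ⥤ AddCommGrpCat.{0} where
  obj U := AddCommGrpCat.of (Fs T U)
  map {V U} _ := AddCommGrpCat.ofHom (res T V U)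
  map_id U := by
    apply AddCommGrpCat.hom_ext
    refine AddMonoidHom.ext fun x => ?_
    exact Fs_ext fun j hj => res_of_P x hj
  map_comp {W V U} f g := by
    apply AddCommGrpCat.hom_ext
    refine AddMonoidHom.ext fun x => ?_
    exact (res_res (leOfHom f) (leOfHom g) x).symm

/-- elements supported at one index -/
noncomputable def sg {T : Set J} {U : Opens NX} (j : J) (hj : j ∈ T ∧ P j U) (a : ℤ) : Fs T U :=
  ⟨Finsupp.single j a, fun k hk => by
    by_cases h : k = j
    · rw [h]
      exact hj
    · rw [Finsupp.single_eq_of_ne h] at hk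
      exact absurd rfl hk⟩

/-- the sum map -/
noncomputable def pS (T : Set J) {ι : Type} [DecidableEq ι] (V : ι → Opens NX) (U : Opens NX) :
    (⨁ i, Fs T (V i)) →+ Fs T U :=
  DirectSum.toAddMonoid fun i => res T (V i) U

/-- the difference map -/
noncomputable def pD (T : Set J) {ι : Type} [DecidableEq ι] (V : ι → Opens NX) :
    (⨁ p : ι × ι, Fs T (V p.1 ⊓ V p.2)) →+ ⨁ i, Fs T (V i) :=
  DirectSum.toAddMonoid fun p =>
    (DirectSum.of (fun i => Fs T (V i)) p.1).comp (res T (V p.1 ⊓ V p.2) (V p.1)) -
    (DirectSum.of (fun i => Fs T (V i)) p.2).comp (res T (V p.1 ⊓ V p.2) (V p.2))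

theorem plain (T : Set J) {ι : Type} [DecidableEq ι] (V : ι → Opens NX) (U : Opens NX)
    (hVU : ∀ i, V i ≤ U) (hUV : U ≤ iSup V) :
    Function.Surjective (pS T V U) ∧ Function.Exact (pD T V) (pS T V U) := by
  classical
  have hmem : ∀ x ∈ U, ∃ i, x ∈ V i := fun x hx => by
    have := hUV hx
    rwa [Opens.mem_iSup] at this
  -- the two maps on generators
  have hsum : ∀ (i : ι) (x : Fs T (V i)), pS T V U
      (DirectSum.of (fun i => Fs T (V i)) i x) = res T (V i) U x := by
    intro i x
    unfold pS
    rw [DirectSum.toAddMonoid_of]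
  have hdiff : ∀ (p : ι × ι) (x : Fs T (V p.1 ⊓ V p.2)), pD T V
      (DirectSum.of (fun p : ι × ι => Fs T (V p.1 ⊓ V p.2)) p x) =
      DirectSum.of (fun i => Fs T (V i)) p.1 (res T (V p.1 ⊓ V p.2) (V p.1) x) -
      DirectSum.of (fun i => Fs T (V i)) p.2 (res T (V p.1 ⊓ V p.2) (V p.2) x) := by
    intro p x
    unfold pD
    rw [DirectSum.toAddMonoid_of]
    rfl
  constructor
  · intro x
    by_cases hU : NE U
    · obtain ⟨y, hy⟩ := hU
      obtain ⟨i, hi⟩ := hmem y hy
      let x' : Fs T (V i) := ⟨x.1, fun j hj => by
        obtain ⟨h1, h2⟩ := x.2 j hj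
        exact ⟨h1, P_mono (hVU i) ⟨y, hi⟩ h2⟩⟩
      refine ⟨DirectSum.of (fun i => Fs T (V i)) i x', ?_⟩
      rw [hsum]
      exact Fs_ext fun j hj => res_of_P _ hj
    · refine ⟨0, ?_⟩
      rw [map_zero]
      exact (eq_zero_of_not_NE x hU).symm
  · intro y
    constructor
    · intro hy
      by_cases hi0 : ∃ i0, NE (V i0)
      · obtain ⟨i0, hi0⟩ := hi0
        have hU : NE U := by
          obtain ⟨z, hz⟩ := hi0
          exact ⟨z, hVU i0 hz⟩
        let w : (⨁ i, Fs T (V i)) →+ Fs T (V i0) :=
          DirectSum.toAddMonoid fun i => res T (V i) (V i0)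
        have hw : ∀ (i : ι) (x : Fs T (V i)), w (DirectSum.of (fun i => Fs T (V i)) i x) =
            res T (V i) (V i0) x := fun i x => by
          show DirectSum.toAddMonoid _ _ = _
          rw [DirectSum.toAddMonoid_of]
        -- step 1
        have step1 : ∀ z : ⨁ i, Fs T (V i),
            z - DirectSum.of (fun i => Fs T (V i)) i0 (w z) ∈ (pD T V).range := by
          intro z
          induction z using DirectSum.induction_on with
          | zero =>
            rw [map_zero, sub_eq_add_neg, zero_add]
            refine neg_mem ?_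
            have : DirectSum.of (fun i => Fs T (V i)) i0 ((0 : Fs T (V i0))) = 0 := map_zero _
            rw [this]
            exact zero_mem _
          | of i x =>
            rw [hw]
            by_cases hVi : NE (V i)
            · have hne : NE (V i ⊓ V i0) := NE_inf hVi hi0
              let x' : Fs T (V i ⊓ V i0) := res T (V i) (V i ⊓ V i0) x
              refine ⟨DirectSum.of (fun p : ι × ι => Fs T (V p.1 ⊓ V p.2)) (i, i0) x', ?_⟩
              rw [hdiff]
              have e1 : res T (V i ⊓ V i0) (V i) x' = x := Fs_ext fun j hj => by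
                rw [res_of_P _ hj, res_of_P _ (P_mono inf_le_left hne hj)]
              have e2 : res T (V i ⊓ V i0) (V i0) x' = res T (V i) (V i0) x :=
                Fs_ext fun j hj => by
                  rw [res_of_P _ hj, res_of_P _ hj, res_of_P _ (P_mono inf_le_right hne hj)]
              show _ - _ = _
              rw [e1, e2]
            · have : x = (0 : Fs T (V i)) := eq_zero_of_not_NE x hVi
              rw [this]
              have e1 : DirectSum.of (fun i => Fs T (V i)) i (0 : Fs T (V i)) = 0 :=
                map_zero _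
              have e2 : res T (V i) (V i0) (0 : Fs T (V i)) = 0 := map_zero _
              have e3 : DirectSum.of (fun i => Fs T (V i)) i0 (0 : Fs T (V i0)) = 0 :=
                map_zero _
              rw [e1, e2, e3, sub_zero]
              exact zero_mem _
          | add a b ha hb =>
            have := add_mem ha hb
            rw [map_add]
            have e : DirectSum.of (fun i => Fs T (V i)) i0 (w a + w b) =
              DirectSum.of (fun i => Fs T (V i)) i0 (w a) +
              DirectSum.of (fun i => Fs T (V i)) i0 (w b) := map_add _ _ _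
            rw [e]
            convert this using 1
            abel
        -- step 2
        have step2 : res T (V i0) U (w y) = 0 := by
          have h1 : (res T (V i0) U).comp w = pS T V U := by
            refine DirectSum.addHom_ext fun i x => ?_
            rw [AddMonoidHom.comp_apply, hw, hsum]
            exact Fs_ext fun j hj => by
              rw [res_of_P _ hj, res_of_P _ hj, res_of_P _ (P_mono (hVU i0) hi0 hj)]
          have h2 := DFunLike.congr_fun h1 y
          rw [hy] at h2
          exact h2
        have step3 : ∀ (x : J →₀ ℤ) (hx : ∀ j, x j ≠ 0 → (j ∈ T ∧ P j (V i0)) ∧ ¬ P j U),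
            DirectSum.of (fun i => Fs T (V i)) i0
              ((⟨x, fun j hj => (hx j hj).1⟩ : Fs T (V i0))) ∈ (pD T V).range := by
          intro x
          induction x using Finsupp.induction with
          | zero =>
            intro hx
            have : DirectSum.of (fun i => Fs T (V i)) i0
              ((⟨0, fun j hj => (hx j hj).1⟩ : Fs T (V i0))) = 0 := map_zero _
            rw [this]
            exact zero_mem _
          | single_add j a x hj ha ih =>
            intro hx
            have hjx : (Finsupp.single j a + x) j = a := by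
              rw [Finsupp.add_apply, Finsupp.single_eq_same, Finsupp.notMem_support_iff.mp hj,
                add_zero]
            obtain ⟨⟨h1, h2⟩, h3⟩ := hx j (by rw [hjx]; exact ha)
            have hx' : ∀ k, x k ≠ 0 → (k ∈ T ∧ P k (V i0)) ∧ ¬ P k U := by
              intro k hk
              have hkj : k ≠ j := by
                rintro rfl
                exact hk (Finsupp.notMem_support_iff.mp hj)
              refine hx k ?_
              rw [Finsupp.add_apply, Finsupp.single_eq_of_ne hkj, zero_add]
              exact hk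
            have h4 := ih hx'
            -- the single element
            obtain ⟨n, hn, hnU⟩ : ∃ n, j = some n ∧ n ∈ U := by
              by_contra hcon
              push Not at hcon
              exact h3 ⟨hU, hcon⟩
            obtain ⟨k, hk⟩ := hmem n hnU
            have hne : NE (V i0 ⊓ V k) := NE_inf hi0 ⟨n, hk⟩
            have hPj : P j (V i0 ⊓ V k) := P_mono inf_le_left hne h2
            have h5 : DirectSum.of (fun i => Fs T (V i)) i0
                (sg j ⟨h1, h2⟩ a : Fs T (V i0)) ∈ (pD T V).range := by
              refine ⟨DirectSum.of (fun p : ι × ι => Fs T (V p.1 ⊓ V p.2)) (i0, k)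
                (sg j ⟨h1, hPj⟩ a : Fs T (V i0 ⊓ V k)), ?_⟩
              rw [hdiff]
              have e1 : res T (V i0 ⊓ V k) (V i0) (sg j ⟨h1, hPj⟩ a) = sg j ⟨h1, h2⟩ a :=
                Fs_ext fun l hl => by rw [res_of_P _ hl]; rfl
              have e2 : res T (V i0 ⊓ V k) (V k) (sg j ⟨h1, hPj⟩ a) = 0 := by
                refine Fs_ext fun l hl => ?_
                rw [res_of_P _ hl]
                have : l ≠ j := by
                  rintro rfl
                  exact hl.2 n hn hk
                exact Finsupp.single_eq_of_ne this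
              show _ - _ = _
              rw [e1, e2]
              have e3 : DirectSum.of (fun i => Fs T (V i)) k (0 : Fs T (V k)) = 0 :=
                map_zero _
              rw [e3, sub_zero]
            have h6 := add_mem h5 h4
            have e : DirectSum.of (fun i => Fs T (V i)) i0
                ((sg j ⟨h1, h2⟩ a : Fs T (V i0)) + ⟨x, fun j hj => (hx' j hj).1⟩) =
                DirectSum.of (fun i => Fs T (V i)) i0 (sg j ⟨h1, h2⟩ a : Fs T (V i0)) +
                DirectSum.of (fun i => Fs T (V i)) i0
                  (⟨x, fun j hj => (hx' j hj).1⟩ : Fs T (V i0)) := map_add _ _ _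
            rw [← e] at h6
            exact h6
        have h7 := step3 (w y).1 (fun j hj => ⟨(w y).2 j hj, fun hP => hj (by
          have := res_of_P (w y) hP
          rw [step2] at this
          exact this.symm)⟩)
        have h8 := add_mem (step1 y) h7
        have h9 : y - DirectSum.of (fun i => Fs T (V i)) i0 (w y) +
            DirectSum.of (fun i => Fs T (V i)) i0 (w y) = y := sub_add_cancel _ _
        rw [← h9]
        exact h8
      · -- all members of the cover are empty
        push Not at hi0
        have : ∀ z : ⨁ i, Fs T (V i), z = 0 := by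
          intro z
          induction z using DirectSum.induction_on with
          | zero => rfl
          | of i x =>
            have : x = (0 : Fs T (V i)) := eq_zero_of_not_NE x (hi0 i)
            rw [this]
            exact map_zero _
          | add a b ha hb => rw [ha, hb, add_zero]
        exact ⟨0, by rw [map_zero, this y]⟩
    · rintro ⟨z, rfl⟩
      have h1 : (pS T V U).comp (pD T V) = 0 := by
        refine DirectSum.addHom_ext fun p x => ?_
        rw [AddMonoidHom.comp_apply, hdiff, map_sub, hsum, hsum]
        rw [res_res inf_le_left (hVU p.1), res_res inf_le_right (hVU p.2), sub_self]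
        rfl
      exact DFunLike.congr_fun h1 z

theorem isCosheaf_FF (T : Set J) : IsCosheaf (FF T) :=
  fun _ _ V U h hU => plain T V U h hU

/-! ### Morphisms -/

/-- the set of indices different from `none` -/
def So : Set J := Set.range some

open Classical in
/-- a linear combination of the first coordinate and of the coordinate -/
noncomputable def trx (α β : ℕ → ℤ) (U : Opens NX) (x : J →₀ ℤ) : J →₀ ℤ :=
  Finsupp.ofSupportFinite (fun j => match j with
    | none => 0
    | some n => if P (some n) U then α (nn n) * x none + β (nn n) * x (some n) else 0) (by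
    refine (finite_P U).subset fun j hj => ?_
    rcases j with _ | n
    · exact absurd rfl hj
    · by_contra hP
      exact hj (if_neg hP))

theorem trx_none (α β : ℕ → ℤ) (U : Opens NX) (x : J →₀ ℤ) : trx α β U x none = 0 := rfl

theorem trx_pos (α β : ℕ → ℤ) (U : Opens NX) (x : J →₀ ℤ) (n : NX) (h : P (some n) U) :
    trx α β U x (some n) = α (nn n) * x none + β (nn n) * x (some n) := if_pos h

theorem trx_neg (α β : ℕ → ℤ) (U : Opens NX) (x : J →₀ ℤ) (n : NX) (h : ¬ P (some n) U) :
    trx α β U x (some n) = 0 := if_neg h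

theorem trx_mem (α β : ℕ → ℤ) (U : Opens NX) (x : J →₀ ℤ) : trx α β U x ∈ Fs So U := by
  intro j hj
  rcases j with _ | n
  · exact absurd (trx_none α β U x) hj
  · refine ⟨⟨n, rfl⟩, ?_⟩
    by_contra hP
    exact hj (trx_neg α β U x n hP)

/-- the same on sections -/
noncomputable def trs (T : Set J) (α β : ℕ → ℤ) (U : Opens NX) : Fs T U →+ Fs So U where
  toFun x := ⟨trx α β U x.1, trx_mem α β U x.1⟩
  map_zero' := Fs_ext fun j _ => by
    rcases j with _ | n
    · rfl
    · show trx α β U 0 (some n) = 0
      by_cases h : P (some n) U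
      · rw [trx_pos _ _ _ _ _ h]
        simp
      · rw [trx_neg _ _ _ _ _ h]
  map_add' x y := Fs_ext fun j _ => by
    rcases j with _ | n
    · rfl
    · show trx α β U (x.1 + y.1) (some n) = trx α β U x.1 (some n) + trx α β U y.1 (some n)
      by_cases h : P (some n) U
      · rw [trx_pos _ _ _ _ _ h, trx_pos _ _ _ _ _ h, trx_pos _ _ _ _ _ h, Finsupp.add_apply,
          Finsupp.add_apply]
        ring
      · rw [trx_neg _ _ _ _ _ h, trx_neg _ _ _ _ _ h, trx_neg _ _ _ _ _ h, add_zero]

theorem trs_res (T : Set J) (α β : ℕ → ℤ) {V U : Opens NX} (h : V ≤ U) (x : Fs T V) :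
    trs T α β U (res T V U x) = res So V U (trs T α β V x) := by
  by_cases hV : NE V
  · refine Fs_ext fun j hj => ?_
    rw [res_of_P _ hj]
    rcases j with _ | n
    · rfl
    · show trx α β U (res T V U x).1 (some n) = trx α β V x.1 (some n)
      rw [trx_pos _ _ _ _ _ hj, trx_pos _ _ _ _ _ (P_mono h hV hj), res_of_P _ hj,
        res_of_P _ (P_none hj.1)]
  · rw [eq_zero_of_not_NE x hV, map_zero, map_zero, map_zero, map_zero]

/-- the morphism of precosheaves -/
noncomputable def trn (T : Set J) (α β : ℕ → ℤ) : FF T ⟶ FF So where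
  app U := AddCommGrpCat.ofHom (trs T α β U)
  naturality {V U} f := by
    apply AddCommGrpCat.hom_ext
    refine AddMonoidHom.ext fun x => ?_
    exact trs_res T α β (leOfHom f) x

/-- `1 + 3 + ... + 3^(k-1)` -/
def gs (k : ℕ) : ℤ := ∑ i ∈ Finset.range k, 3 ^ i

theorem two_gs (k : ℕ) : 2 * gs k + 1 = 3 ^ k := by
  induction k with
  | zero => simp [gs]
  | succ k ih =>
    unfold gs at ih ⊢
    rw [Finset.sum_range_succ, pow_succ]
    linarith

theorem gs_add (a b : ℕ) : gs (a + b) = gs a + 3 ^ a * gs b := by
  have h1 := two_gs (a + b)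
  have h2 := two_gs a
  have h3 := two_gs b
  have h4 : (3 : ℤ) ^ (a + b) = 3 ^ a * 3 ^ b := pow_add _ _ _
  rw [h4, ← h3] at h1
  rw [← h2] at h1
  have h5 : (2 * gs a + 1) = 3 ^ a := h2
  rw [← h5]
  nlinarith

theorem int_eq_zero_of_pow_dvd (a : ℤ) (h : ∀ n : ℕ, (3 : ℤ) ^ n ∣ a) : a = 0 := by
  by_contra hne
  have h1 := Int.le_of_dvd (abs_pos.mpr hne) ((dvd_abs _ _).mpr (h a.natAbs))
  have h2 : (a.natAbs : ℤ) < 3 ^ a.natAbs := by
    exact_mod_cast Nat.lt_pow_self (by norm_num)
  rw [Int.abs_eq_natAbs] at h1
  linarith

/-- coefficients -/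
def af : ℕ → ℤ := fun _ => 1
/-- coefficients -/
def bf : ℕ → ℤ := fun n => -3 ^ (n + 1)
/-- coefficients -/
def ag : ℕ → ℤ := fun n => gs (n + 1)
/-- coefficients -/
def bg : ℕ → ℤ := fun _ => 0

/-- the monomorphism on sections -/
noncomputable def tf (U : Opens NX) : Fs Set.univ U →+ Fs So U := trs Set.univ af bf U
/-- the other morphism on sections -/
noncomputable def tg (U : Opens NX) : Fs ({none} : Set J) U →+ Fs So U := trs {none} ag bg U

/-- the monomorphism -/
noncomputable def fm : FF Set.univ ⟶ FF So := trn Set.univ af bf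

/-- the morphism which does not factor -/
noncomputable def gm : FF {none} ⟶ FF So := trn {none} ag bg

/-- the space as an object -/
noncomputable def OA : CS NX := ⟨FF Set.univ, isCosheaf_FF _⟩
/-- the target -/
noncomputable def OB : CS NX := ⟨FF So, isCosheaf_FF _⟩
/-- the constant cosheaf -/
noncomputable def OZ : CS NX := ⟨FF {none}, isCosheaf_FF _⟩

/-- the monomorphism -/
noncomputable def fc : OA ⟶ OB := ObjectProperty.homMk fm
/-- the morphism which does not factor -/
noncomputable def gc : OZ ⟶ OB := ObjectProperty.homMk gm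

theorem fm_pos {U : Opens NX} (x : Fs Set.univ U) (n : NX) (h : P (some n) U) :
    (tf U x).1 (some n) = x.1 none - 3 ^ (nn n + 1) * x.1 (some n) := by
  have h1 : (tf U x).1 (some n) = trx af bf U x.1 (some n) := rfl
  rw [h1, trx_pos _ _ _ _ _ h]
  unfold af bf
  ring

theorem gm_pos {U : Opens NX} (x : Fs ({none} : Set J) U) (n : NX) (h : P (some n) U) :
    (tg U x).1 (some n) = gs (nn n + 1) * x.1 none := by
  have h1 : (tg U x).1 (some n) = trx ag bg U x.1 (some n) := rfl
  rw [h1, trx_pos _ _ _ _ _ h]
  unfold ag bg
  ring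

theorem exists_large (N : ℕ) : ∃ m1 m2 : NX, m1 ≠ m2 ∧ N ≤ nn m1 ∧ N ≤ nn m2 := by
  obtain ⟨m1, h1⟩ := nn_surj N
  obtain ⟨m2, h2⟩ := nn_surj (N + 1)
  refine ⟨m1, m2, ?_, by omega, by omega⟩
  rintro rfl
  omega

/-- the components of a morphism -/
noncomputable def cmp {C : Opens NX ⥤ AddCommGrpCat.{0}} {T : Set J} (h : C ⟶ FF T) (U : Opens NX) :
    C.obj U →+ Fs T U := (h.app U).hom

theorem cmp_nat {C : Opens NX ⥤ AddCommGrpCat.{0}} {T : Set J} (h : C ⟶ FF T) {V U : Opens NX}
    (hVU : V ≤ U) (c : C.obj V) :
    cmp h U ((C.map (homOfLE hVU)).hom c) = res T V U (cmp h V c) :=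
  congrArg (fun k => k.hom c) (h.naturality (homOfLE hVU))

/-- the key step for the monomorphism -/
theorem key_mono (C : Opens NX ⥤ AddCommGrpCat.{0}) (hC : IsCosheaf C) (h₁ h₂ : C ⟶ FF Set.univ)
    (heq : h₁ ≫ fm = h₂ ≫ fm) : h₁ = h₂ := by
  classical
  -- the difference
  let d : ∀ U, C.obj U →+ Fs Set.univ U := fun U => cmp h₁ U - cmp h₂ U
  have hd : ∀ U c n, P (some n) U → (d U c).1 none = 3 ^ (nn n + 1) * (d U c).1 (some n) := by
    intro U c n hP
    have e2 : tf U (cmp h₁ U c) = tf U (cmp h₂ U c) :=
      congrArg (fun k => (k.app U).hom c) heq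
    have e3 : tf U (d U c) = 0 := by
      have : d U c = cmp h₁ U c - cmp h₂ U c := rfl
      rw [this, map_sub, e2, sub_self]
    have e4 := fm_pos (d U c) n hP
    rw [e3] at e4
    have e5 : (0 : ℤ) = (d U c).1 none - 3 ^ (nn n + 1) * (d U c).1 (some n) := e4
    linarith
  have hnat : ∀ {V U : Opens NX} (h : V ≤ U) (c : C.obj V),
      d U ((C.map (homOfLE h)).hom c) = res Set.univ V U (d V c) := by
    intro V U h c
    have e1 : d U ((C.map (homOfLE h)).hom c) = cmp h₁ U ((C.map (homOfLE h)).hom c) -
      cmp h₂ U ((C.map (homOfLE h)).hom c) := rfl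
    have e2 : d V c = cmp h₁ V c - cmp h₂ V c := rfl
    rw [e1, e2, cmp_nat, cmp_nat, map_sub]
  have hzero : ∀ U c, d U c = 0 := by
    intro U c
    by_cases hU : NE U
    · have h0 : (d U c).1 none = 0 := by
        apply int_eq_zero_of_pow_dvd
        intro N
        obtain ⟨m1, m2, hne, hm1, hm2⟩ := exists_large N
        let V : Bool → Opens NX := fun b => if b then U ⊓ co m1 else U ⊓ co m2
        have hVU : ∀ b, V b ≤ U := by
          intro b
          cases b
          · exact inf_le_left
          · exact inf_le_left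
        have hUV : U ≤ iSup V := by
          intro x hx
          have : x ∈ iSup V := by
            rw [Opens.mem_iSup]
            by_cases hx1 : x = m1
            · refine ⟨false, hx, ?_⟩
              rw [hx1]
              exact hne
            · exact ⟨true, hx, hx1⟩
          exact this
        obtain ⟨y, hy⟩ := (hC Bool V U hVU hUV).1 c
        have hall : ∀ y : ⨁ b, C.obj (V b), (3 : ℤ) ^ N ∣ (d U (sumMap C V U hVU y)).1 none := by
          intro y
          induction y using DirectSum.induction_on with
          | zero =>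
            rw [map_zero, map_zero]
            exact dvd_zero _
          | of b z =>
            have e1 : sumMap C V U hVU (DirectSum.of (fun b => C.obj (V b)) b z) =
                (C.map (homOfLE (hVU b))).hom z := by
              unfold sumMap
              rw [DirectSum.toAddMonoid_of]
            rw [e1, hnat (hVU b), res_of_P _ (P_none hU)]
            by_cases hVb : NE (V b)
            · obtain ⟨m, hm, hmV⟩ : ∃ m, N ≤ nn m ∧ m ∉ V b := by
                cases b
                · exact ⟨m2, hm2, fun h => h.2 rfl⟩
                · exact ⟨m1, hm1, fun h => h.2 rfl⟩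
              have hP : P (some m) (V b) := ⟨hVb, fun x hx => by cases hx; exact hmV⟩
              rw [hd (V b) z m hP]
              exact (pow_dvd_pow 3 (by omega)).mul_right _
            · rw [eq_zero_of_not_NE (d (V b) z) hVb]
              exact dvd_zero _
          | add a b ha hb =>
            rw [map_add, map_add]
            exact dvd_add ha hb
        rw [← hy]
        exact hall y
      refine Fs_ext fun j hj => ?_
      rcases j with _ | n
      · exact h0
      · have h1 := hd U c n hj
        rw [h0] at h1
        have h2 : (3 : ℤ) ^ (nn n + 1) ≠ 0 := by positivity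
        rcases mul_eq_zero.mp h1.symm with h3 | h3
        · exact absurd h3 h2
        · exact h3
    · exact eq_zero_of_not_NE _ hU
  apply NatTrans.ext
  funext U
  apply AddCommGrpCat.hom_ext
  refine AddMonoidHom.ext fun c => ?_
  have h1 : cmp h₁ U c - cmp h₂ U c = 0 := hzero U c
  have h2 : cmp h₁ U c = cmp h₂ U c := sub_eq_zero.mp h1
  exact h2

instance : Mono fc where
  right_cancellation h₁ h₂ h := by
    apply ObjectProperty.hom_ext
    exact key_mono _ (ObjectProperty.FullSubcategory.property _) _ _ (congrArg (fun k => k.hom) h)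

/-- every morphism which kills `fm` kills `gm` -/
theorem key_coker (C : Opens NX ⥤ AddCommGrpCat.{0}) (h : FF So ⟶ C) (hf : fm ≫ h = 0) :
    gm ≫ h = 0 := by
  classical
  apply NatTrans.ext
  funext U
  apply AddCommGrpCat.hom_ext
  refine AddMonoidHom.ext fun z => ?_
  let H : Fs So U →+ C.obj U := (h.app U).hom
  have hf' : ∀ x : Fs Set.univ U, H (tf U x) = 0 := by
    intro x
    have := congrArg (fun k => (k.app U).hom x) hf
    exact this
  have main : ∀ z : Fs ({none} : Set J) U, H (tg U z) = 0 := by
    intro z
    by_cases hU : NE U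
    · obtain ⟨M, hM⟩ : ∃ M, ∀ n, n ∉ U → nn n ≤ M := by
        refine ⟨(finite_compl hU).toFinset.sup nn, fun n hn => ?_⟩
        exact Finset.le_sup (f := nn) ((finite_compl hU).mem_toFinset.mpr hn)
      let x0 : J →₀ ℤ := Finsupp.ofSupportFinite (fun j => match j with
        | none => z.1 none * gs (M + 1)
        | some n => if P (some n) U then z.1 none * gs (M - nn n) else 0) (by
        refine (finite_P U).subset fun j hj => ?_
        rcases j with _ | n
        · exact P_none hU
        · by_contra hP
          exact hj (if_neg hP))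
      have hx0 : x0 ∈ Fs Set.univ U := by
        intro j hj
        refine ⟨trivial, ?_⟩
        rcases j with _ | n
        · exact P_none hU
        · by_contra hP
          exact hj (if_neg hP)
      have e1 : x0 none = z.1 none * gs (M + 1) := rfl
      have e2 : ∀ n, P (some n) U → x0 (some n) = z.1 none * gs (M - nn n) :=
        fun n hn => if_pos hn
      have e3 : tg U z = tf U ⟨x0, hx0⟩ := by
        refine Fs_ext fun j hj => ?_
        rcases j with _ | n
        · rfl
        · have h1 : nn n ≤ M := hM n (hj.2 n rfl)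
          have h2 : M + 1 = (nn n + 1) + (M - nn n) := by omega
          have h3 : gs (M + 1) = gs (nn n + 1) + 3 ^ (nn n + 1) * gs (M - nn n) := by
            rw [← gs_add, ← h2]
          have h4 : (tf U ⟨x0, hx0⟩).1 (some n) = x0 none - 3 ^ (nn n + 1) * x0 (some n) :=
            fm_pos ⟨x0, hx0⟩ n hj
          rw [gm_pos z n hj, h4, e1, e2 n hj, h3]
          ring
      rw [e3]
      exact hf' _
    · rw [eq_zero_of_not_NE z hU, map_zero]
      exact map_zero _
  exact main z

theorem no_factor (k : FF {none} ⟶ FF Set.univ) (hk : k ≫ fm = gm) : False := by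
  classical
  have hU : ∀ n : NX, NE (co n) := by
    intro n
    obtain ⟨m1, m2, hne, -, -⟩ := exists_large 0
    by_cases h : m1 = n
    · exact ⟨m2, fun h' => hne (h.trans (h' : m2 = n).symm)⟩
    · exact ⟨m1, h⟩
  have hT : NE (⊤ : Opens NX) := by
    obtain ⟨m, -⟩ := nn_surj 0
    exact ⟨m, trivial⟩
  let u : ∀ U, NE U → Fs ({none} : Set J) U := fun U h => sg none ⟨rfl, P_none h⟩ 1
  let κ : ∀ U, Fs ({none} : Set J) U →+ Fs Set.univ U := fun U => cmp k U
  have hnat : ∀ (n : NX), κ ⊤ (u ⊤ hT) = res Set.univ (co n) ⊤ (κ (co n) (u (co n) (hU n))) := by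
    intro n
    have n2 : κ ⊤ (res {none} (co n) ⊤ (u (co n) (hU n))) =
      res Set.univ (co n) ⊤ (κ (co n) (u (co n) (hU n))) :=
      cmp_nat k (le_top : co n ≤ ⊤) (u (co n) (hU n))
    rw [← n2]
    congr 1
    refine Fs_ext fun j hj => ?_
    rw [res_of_P _ hj]
    rfl
  obtain ⟨a, ha⟩ : ∃ a, a = (κ ⊤ (u ⊤ hT)).1 none := ⟨_, rfl⟩
  have hdvd : ∀ n : NX, (3 : ℤ) ^ (nn n + 1) ∣ 2 * a + 1 := by
    intro n
    have h1 : a = (κ (co n) (u (co n) (hU n))).1 none := by
      rw [ha, hnat n, res_of_P _ (P_none hT)]
    have hP : P (some n) (co n) := ⟨hU n, fun x hx hx' => by cases hx; exact hx' rfl⟩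
    have h3 : tf (co n) (κ (co n) (u (co n) (hU n))) = tg (co n) (u (co n) (hU n)) :=
      congrArg (fun k => (k.app (co n)).hom (u (co n) (hU n))) hk
    have h4 := fm_pos (κ (co n) (u (co n) (hU n))) n hP
    rw [h3, gm_pos _ _ hP, ← h1] at h4
    have h5 : (u (co n) (hU n)).1 none = 1 := Finsupp.single_eq_same
    rw [h5, mul_one] at h4
    have h6 := two_gs (nn n + 1)
    refine ⟨1 + 2 * (κ (co n) (u (co n) (hU n))).1 (some n), ?_⟩
    linarith
  have h0 : 2 * a + 1 = 0 := by
    apply int_eq_zero_of_pow_dvd
    intro N
    obtain ⟨n, hn⟩ := nn_surj N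
    have := hdvd n
    rw [hn] at this
    exact (pow_dvd_pow 3 (Nat.le_succ N)).trans this
  omega

/-- the standard zero morphisms -/
@[reducible] noncomputable def zm : Limits.HasZeroMorphisms (CS NX) where
  zero X Y := ⟨ObjectProperty.homMk 0⟩
  comp_zero f Z := by
    apply ObjectProperty.hom_ext
    exact Limits.comp_zero
  zero_comp X Y Z f := by
    apply ObjectProperty.hom_ext
    exact Limits.zero_comp

/-- in every structure of zero morphisms, the zero morphism is the zero natural transformation -/
theorem zero_hom (i : Limits.HasZeroMorphisms (CS NX)) (A B : CS NX) :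
    (@OfNat.ofNat (A ⟶ B) 0 (@Zero.toOfNat0 _ (i.zero A B))) = ObjectProperty.homMk 0 := by
  have : i = zm := Subsingleton.elim _ _
  subst this
  rfl

theorem absurd_normal [Limits.HasZeroMorphisms (CS NX)] (hn : NormalMono fc) : False := by
  have hw : fc ≫ hn.g = 0 := hn.w
  have hw' : fm ≫ hn.g.hom = 0 := by
    rw [zero_hom] at hw
    exact congrArg (fun k => k.hom) hw
  have h1 := key_coker _ _ hw'
  have h2 : gc ≫ hn.g = 0 := by
    rw [zero_hom]
    apply ObjectProperty.hom_ext
    exact h1
  obtain ⟨l, hl⟩ := NormalMono.lift' fc gc h2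
  exact no_factor l.hom (congrArg (fun k => k.hom) hl)

/-- Q1 is proved: there is a topological space `X`, namely the natural numbers with the cofinite
topology, such that the category of cosheaves of abelian groups on `X` is not abelian. -/
theorem result : ∃ (X : Type) (_ : TopologicalSpace X), IsEmpty (Abelian (CS X)) := by
  refine ⟨NX, inferInstance, ⟨fun hA => ?_⟩⟩
  let i : Limits.HasZeroMorphisms (CS NX) :=
    @Preadditive.preadditiveHasZeroMorphisms _ _ hA.toPreadditive
  have hn : @IsNormalMonoCategory (CS NX) _ i := hA.toIsNormalMonoCategory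
  obtain ⟨h⟩ := hn.normalMonoOfMono fc
  exact @absurd_normal i h

end Pool.Agent.Results.MP_c909fd_al.NotAbelian
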